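import Pool.Agent.U1.BL.Pull
import Pool.Agent.R882.UB
import Pool.Agent.W619.TW.NVFin

/-!
Ruled varieties: there are no canonical forms, and every point is rationally equivalent to a point of
a fixed divisor.
-/

set_option autoImplicit false
set_option linter.overlappingInstances false
set_option linter.unusedSectionVars false

open FF Pool.Agent.W603.LV Pool.Agent.N162.BC Pool.Agent.N141.CV Pool.Agent.N162.PR
  Pool.Agent.W602.GT

namespace Pool.Agent.U1.BL

section

variable {L Ω E : Type} [Field L] [Algebra ℂ L] [Field Ω] [Algebra ℂ Ω] [Field E] [Algebra Ω E]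

/-- a place is centred at `q` if this is true for generators -/
theorem centred_of_gens {τ : L →+* E}
    (hτ : ∀ z : ℂ, τ (algebraMap ℂ L z) = algebraMap Ω E (algebraMap ℂ Ω z)) {P : Place Ω E}
    {q : L →ₐ[ℂ] Ω} {S : Set L} (hgen : IntermediateField.adjoin ℂ S = ⊤)
    (h : ∀ s ∈ S, Ge P 1 (τ s - algebraMap Ω E (q s))) : CentredAt τ P q := by
  rw [centred_iff]
  intro κ
  have hκ : κ ∈ IntermediateField.adjoin ℂ S := by
    rw [hgen]
    trivial
  have h0 : ∀ a : L, Ge P 1 (τ a - algebraMap Ω E (q a)) → Ge P 0 (τ a) := by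
    intro a ha
    have h1 : τ a = (τ a - algebraMap Ω E (q a)) + algebraMap Ω E (q a) := by ring
    rw [h1]
    refine Ge.add ?_ (Ge.const _)
    rcases ha with h | h
    · exact Or.inl h
    · exact Or.inr (by omega)
  induction hκ using IntermediateField.adjoin_induction with
  | mem e he => exact h e he
  | algebraMap c =>
    rw [hτ, AlgHom.commutes, sub_self]
    exact Ge.zero
  | add a b _ _ ha hb =>
    rw [map_add, map_add, map_add, add_sub_add_comm]
    exact ha.add hb
  | inv a _ ha =>
    by_cases ha0 : a = 0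
    · rw [ha0, inv_zero, map_zero, map_zero, map_zero, sub_zero]
      exact Ge.zero
    · have hσ0 : q a ≠ 0 := (_root_.map_ne_zero q).2 ha0
      have hφ0 : τ a ≠ 0 := (_root_.map_ne_zero τ).2 ha0
      have hu : P.ord (τ a) = 0 := by
        by_cases hd : τ a - algebraMap Ω E (q a) = 0
        · rw [sub_eq_zero.1 hd, P.ord_const hσ0]
        · have h1 := ha.resolve_left hd
          have h2 := P.ord_add_eq (f := algebraMap Ω E (q a)) (g := τ a - algebraMap Ω E (q a))
            (by simpa using hσ0) hd (by rw [P.ord_const hσ0]; omega)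
          rw [add_sub_cancel, P.ord_const hσ0] at h2
          exact h2.2
      have hσ0' : algebraMap Ω E (q a) ≠ 0 := by simpa using hσ0
      have h1 : τ a⁻¹ - algebraMap Ω E (q a⁻¹) =
          -((τ a - algebraMap Ω E (q a)) * (τ a)⁻¹ * algebraMap Ω E (q a)⁻¹) := by
        rw [map_inv₀, map_inv₀, map_inv₀]
        field_simp
        ring
      rw [h1]
      have h2 : Ge P 0 (τ a)⁻¹ := Or.inr (by rw [P.ord_inv, hu]; simp)
      have h3 := (ha.mul h2).mul (Ge.const (P := P) (q a)⁻¹)
      rw [add_zero, add_zero] at h3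
      exact h3.neg
  | mul a b _ _ ha hb =>
    have h1 : τ (a * b) - algebraMap Ω E (q (a * b)) = (τ b - algebraMap Ω E (q b)) * τ a +
        (τ a - algebraMap Ω E (q a)) * algebraMap Ω E (q b) := by
      rw [map_mul, map_mul, map_mul]
      ring
    rw [h1]
    have h2 := hb.mul (h0 a ha)
    have h3 := ha.mul (Ge.const (P := P) (q b))
    rw [add_zero] at h2 h3
    exact h2.add h3

theorem isFF_ratFunc [CharZero Ω] : IsFF Ω (RatFunc Ω) := by
  refine IsFF.of_finite (f := (RatFunc.X : RatFunc Ω)) RatFunc.transcendental_X ?_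
  rw [RatFunc.adjoin_X]
  exact Module.Finite.of_surjective (Algebra.linearMap (⊤ : IntermediateField Ω (RatFunc Ω))
    (RatFunc Ω)) fun z => ⟨⟨z, trivial⟩, rfl⟩

/-- the coordinate function of a ruled variety along a line of the ruling -/
theorem exists_line {M : IntermediateField ℂ L} {t : L} (ht : Transcendental M t)
    (htop : IntermediateField.adjoin M {t} = ⊤) (q : L →ₐ[ℂ] Ω) : ∃ τ : L →+* RatFunc Ω,
      (∀ m : M, τ m = algebraMap Ω (RatFunc Ω) (q m)) ∧ τ t = RatFunc.X := by
  let e1 : RatFunc M ≃ₐ[M] IntermediateField.adjoin M {t} :=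
    RatFunc.algEquivOfTranscendental t ht
  let e2 : IntermediateField.adjoin M {t} ≃ₐ[M] L :=
    (IntermediateField.equivOfEq htop).trans IntermediateField.topEquiv
  let e : RatFunc M ≃ₐ[M] L := e1.trans e2
  have he : e RatFunc.X = t := by
    change ((e1 RatFunc.X : IntermediateField.adjoin M {t}) : L) = t
    exact RatFunc.algEquivOfTranscendental_X t ht
  let qM : M →+* Ω := (q : L →+* Ω).comp (algebraMap M L)
  have hinj : Function.Injective (Polynomial.mapRingHom qM) :=
    Polynomial.map_injective qM qM.injective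
  have hle : nonZeroDivisors (Polynomial M) ≤
      (nonZeroDivisors (Polynomial Ω)).comap (Polynomial.mapRingHom qM) :=
    nonZeroDivisors_le_comap_nonZeroDivisors_of_injective _ hinj
  let φ : RatFunc M →+* RatFunc Ω := RatFunc.mapRingHom (Polynomial.mapRingHom qM) hle
  have hφ : ∀ p : Polynomial M, φ (algebraMap (Polynomial M) (RatFunc M) p) =
      algebraMap (Polynomial Ω) (RatFunc Ω) (p.map qM) := by
    intro p
    have h1 := RatFunc.map_apply_div (φ := Polynomial.mapRingHom qM) hle p 1
    rw [map_one, map_one, div_one, map_one, div_one] at h1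
    exact h1
  refine ⟨φ.comp (e.symm : L →+* RatFunc M), fun m => ?_, ?_⟩
  · rw [RingHom.comp_apply]
    have h1 : (e.symm : L →+* RatFunc M) (m : L) =
        algebraMap (Polynomial M) (RatFunc M) (Polynomial.C m) := by
      have h2 : e.symm (algebraMap M L m) = algebraMap M (RatFunc M) m := e.symm.commutes m
      change e.symm (m : L) = _
      have h3 : (m : L) = algebraMap M L m := rfl
      rw [h3, h2, IsScalarTower.algebraMap_apply M (Polynomial M) (RatFunc M)]
      rfl
    rw [h1, hφ, Polynomial.map_C, IsScalarTower.algebraMap_apply Ω (Polynomial Ω) (RatFunc Ω)]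
    rfl
  · rw [RingHom.comp_apply]
    have h1 : (e.symm : L →+* RatFunc M) t = RatFunc.X := by
      change e.symm t = _
      rw [AlgEquiv.symm_apply_eq]
      exact he.symm
    rw [h1, ← RatFunc.algebraMap_X, hφ, Polynomial.map_X, RatFunc.algebraMap_X]

/-- the place of the point `a` of the line -/
theorem exists_pl [CharZero Ω] (a : Ω) : ∃ v : Place Ω (RatFunc Ω),
    v.ord (RatFunc.X - algebraMap Ω (RatFunc Ω) a) = 1 ∧
    ∀ w : Place Ω (RatFunc Ω), Ge w 1 (RatFunc.X - algebraMap Ω (RatFunc Ω) a) → w = v := by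
  classical
  have hFF : IsFF Ω (RatFunc Ω) := isFF_ratFunc
  have htr : Transcendental Ω (RatFunc.X - algebraMap Ω (RatFunc Ω) a) := by
    intro h
    apply RatFunc.transcendental_X (K := Ω)
    have h1 := h.add (isAlgebraic_algebraMap (R := Ω) (A := RatFunc Ω) a)
    rwa [sub_add_cancel] at h1
  have htop : IntermediateField.adjoin Ω {(RatFunc.X - algebraMap Ω (RatFunc Ω) a :
      RatFunc Ω)} = ⊤ := by
    rw [eq_top_iff, ← RatFunc.adjoin_X, IntermediateField.adjoin_simple_le_iff]
    have h1 := add_mem (IntermediateField.mem_adjoin_simple_self Ω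
      (RatFunc.X - algebraMap Ω (RatFunc Ω) a)) (IntermediateField.algebraMap_mem
      (IntermediateField.adjoin Ω {(RatFunc.X - algebraMap Ω (RatFunc Ω) a : RatFunc Ω)}) a)
    rwa [sub_add_cancel] at h1
  obtain ⟨S, hS, hd, hsum⟩ := FF.zeros (k := Ω) (K := RatFunc Ω) htr
  rw [htop, IntermediateField.finrank_top] at hsum
  have hne : S.Nonempty := by
    rw [Finset.nonempty_iff_ne_empty]
    rintro rfl
    rw [Finset.sum_empty] at hsum
    exact zero_ne_one hsum
  obtain ⟨v, hv⟩ := hne
  have hpos : ∀ w ∈ S, 1 ≤ (w.ord (RatFunc.X - algebraMap Ω (RatFunc Ω) a)).toNat * w.deg := by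
    intro w hw
    have h1 := (hS w).1 hw
    have h2 := hd w hw
    have h3 : 0 < (w.ord (RatFunc.X - algebraMap Ω (RatFunc Ω) a)).toNat := by omega
    exact Nat.mul_pos h3 h2
  have hle : ∀ w ∈ S, (w.ord (RatFunc.X - algebraMap Ω (RatFunc Ω) a)).toNat * w.deg ≤ 1 := by
    intro w hw
    rw [← hsum]
    exact Finset.single_le_sum (f := fun w : Place Ω (RatFunc Ω) =>
      (w.ord (RatFunc.X - algebraMap Ω (RatFunc Ω) a)).toNat * w.deg) (fun _ _ => Nat.zero_le _) hw
  have hcard : S.card ≤ 1 := by
    have h1 : S.card • 1 ≤ ∑ w ∈ S,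
        (w.ord (RatFunc.X - algebraMap Ω (RatFunc Ω) a)).toNat * w.deg :=
      Finset.card_nsmul_le_sum _ _ _ hpos
    rw [hsum] at h1
    simpa using h1
  refine ⟨v, ?_, ?_⟩
  · have h1 := hpos v hv
    have h2 := hle v hv
    have h3 := (hS v).1 hv
    have h4 := hd v hv
    have h5 : (v.ord (RatFunc.X - algebraMap Ω (RatFunc Ω) a)).toNat = 1 := by
      have h6 : (v.ord (RatFunc.X - algebraMap Ω (RatFunc Ω) a)).toNat ≤ 1 := by
        calc _ = (v.ord (RatFunc.X - algebraMap Ω (RatFunc Ω) a)).toNat * 1 := (mul_one _).symm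
          _ ≤ (v.ord (RatFunc.X - algebraMap Ω (RatFunc Ω) a)).toNat * v.deg :=
            Nat.mul_le_mul_left _ h4
          _ ≤ 1 := h2
      omega
    omega
  · intro w hw
    have h1 : w ∈ S := by
      rw [hS]
      rcases hw with h | h
      · exact absurd (h ▸ isAlgebraic_zero) htr
      · omega
    exact Finset.card_le_one.1 hcard w h1 v hv

/-- **Points of ruled varieties.** -/
theorem single_mem [IsAlgClosed Ω] {M : IntermediateField ℂ L} {t : L} (ht : Transcendental M t)
    (htop : IntermediateField.adjoin M {t} = ⊤) (q : L →ₐ[ℂ] Ω) :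
    Finsupp.single q 1 ∈ Rat L Ω := by
  classical
  have hcΩ : CharZero Ω := charZero_of_injective_algebraMap (algebraMap ℂ Ω).injective
  have hFF : IsFF Ω (RatFunc Ω) := isFF_ratFunc
  obtain ⟨τ, hτM, hτt⟩ := exists_line ht htop q
  have hτ : ∀ z : ℂ, τ (algebraMap ℂ L z) = algebraMap Ω (RatFunc Ω) (algebraMap ℂ Ω z) := by
    intro z
    have h1 := hτM (algebraMap ℂ M z)
    have h2 : ((algebraMap ℂ M z : M) : L) = algebraMap ℂ L z := rfl
    rw [h2, AlgHom.commutes] at h1
    exact h1
  have hgen : IntermediateField.adjoin ℂ ((M : Set L) ∪ {t}) = ⊤ := by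
    rw [← IntermediateField.restrictScalars_adjoin, htop]
    exact IntermediateField.restrictScalars_top
  have hXne : ∀ a : Ω, (RatFunc.X - algebraMap Ω (RatFunc Ω) a : RatFunc Ω) ≠ 0 := by
    intro a h
    apply RatFunc.transcendental_X (K := Ω)
    rw [sub_eq_zero.1 h]
    exact isAlgebraic_algebraMap a
  obtain ⟨v0, hv0, hv0u⟩ := exists_pl (Ω := Ω) (q t)
  have hv0c : CentredAt τ v0 q := by
    refine centred_of_gens hτ hgen ?_
    rintro s (hs | hs)
    · have h1 := hτM ⟨s, hs⟩
      change τ s = algebraMap Ω (RatFunc Ω) (q s) at h1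
      rw [h1, sub_self]
      exact Ge.zero
    · rw [Set.mem_singleton_iff] at hs
      rw [hs, hτt]
      exact Or.inr hv0.ge
  apply AddSubgroup.subset_closure
  refine ⟨RatFunc Ω, inferInstance, inferInstance, hFF, τ,
    (RatFunc.X - algebraMap Ω (RatFunc Ω) (q t)) / (RatFunc.X - algebraMap Ω (RatFunc Ω) 0), hτ,
    div_ne_zero (hXne _) (hXne _), fun q' => ?_⟩
  -- centres
  have hcen : ∀ v : Place Ω (RatFunc Ω), CentredAt τ v q' →
      Ge v 1 (RatFunc.X - algebraMap Ω (RatFunc Ω) (q' t)) ∧ ∀ m : M, q m = q' m := by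
    intro v hv
    rw [centred_iff] at hv
    refine ⟨?_, fun m => ?_⟩
    · have h1 := hv t
      rwa [hτt] at h1
    · have h1 := hv m
      rw [hτM, ← map_sub] at h1
      exact sub_eq_zero.1 (const_zero h1)
  have ht0 : q' t ≠ 0 := by
    rw [_root_.map_ne_zero]
    rintro rfl
    exact ht isAlgebraic_zero
  have hord0 : ∀ (v : Place Ω (RatFunc Ω)) (a b : Ω),
      Ge v 1 (RatFunc.X - algebraMap Ω (RatFunc Ω) a) → a ≠ b →
      v.ord (RatFunc.X - algebraMap Ω (RatFunc Ω) b) = 0 := by
    intro v a b h hab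
    have h1 := h.resolve_left (hXne a)
    have h2 : algebraMap Ω (RatFunc Ω) (a - b) ≠ 0 :=
      (_root_.map_ne_zero _).2 (sub_ne_zero.2 hab)
    have h3 := v.ord_add_eq (f := algebraMap Ω (RatFunc Ω) (a - b))
      (g := RatFunc.X - algebraMap Ω (RatFunc Ω) a) h2 (hXne a)
      (by rw [v.ord_const (sub_ne_zero.2 hab)]; omega)
    rw [v.ord_const (sub_ne_zero.2 hab)] at h3
    have h4 : algebraMap Ω (RatFunc Ω) (a - b) + (RatFunc.X - algebraMap Ω (RatFunc Ω) a) =
        RatFunc.X - algebraMap Ω (RatFunc Ω) b := by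
      rw [map_sub]
      ring
    rw [h4] at h3
    exact h3.2
  by_cases hqq : q = q'
  · subst hqq
    have hset : {v : Place Ω (RatFunc Ω) | CentredAt τ v q} = {v0} := by
      ext v
      rw [Set.mem_singleton_iff]
      constructor
      · intro hv
        exact hv0u v (hcen v hv).1
      · rintro rfl
        exact hv0c
    rw [hset, finsum_mem_singleton, Finsupp.single_eq_same, v0.ord_div (hXne _) (hXne _), hv0,
      hord0 v0 (q t) 0 (Or.inr hv0.ge) ht0]
    rfl
  · rw [Finsupp.single_apply, if_neg hqq]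
    symm
    refine finsum_mem_eq_zero_of_forall_eq_zero fun v hv => ?_
    obtain ⟨h1, h2⟩ := hcen v hv
    have h3 : q' t ≠ q t := by
      intro h3
      apply hqq
      apply AlgHom.ext
      intro a
      have ha : a ∈ IntermediateField.adjoin ℂ ((M : Set L) ∪ {t}) := by
        rw [hgen]
        trivial
      induction ha using IntermediateField.adjoin_induction with
      | mem e he =>
        rcases he with he | he
        · exact h2 ⟨e, he⟩
        · rw [Set.mem_singleton_iff] at he
          rw [he, h3]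
      | algebraMap c => rw [AlgHom.commutes, AlgHom.commutes]
      | add a b _ _ ha hb => rw [map_add, map_add, ha, hb]
      | inv a _ ha => rw [map_inv₀, map_inv₀, ha]
      | mul a b _ _ ha hb => rw [map_mul, map_mul, ha, hb]
    rw [v.ord_div (hXne _) (hXne _), hord0 v (q' t) (q t) h1 h3, hord0 v (q' t) 0 h1 ht0,
      sub_zero]

end

/-- a ruled variety has no canonical forms -/
theorem pg_ruled {L : Type} [Field L] [Algebra ℂ L] {n : ℕ} (hn : Algebra.trdeg ℂ L = n)
    {M : IntermediateField ℂ L} {t : L} (ht : Transcendental M t)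
    (htop : IntermediateField.adjoin M {t} = ⊤) (ω : (Fin n → Derivation ℂ L L) → L)
    (hω : IsPluri 1 ω) (hreg : ∀ P : Place ℂ L, Divisorial n P → RegAt P ω) (D) : ω D = 0 := by
  have h1 : Pool.Agent.W619.PQ.KodairaNeg ℂ L n :=
    Pool.Agent.W619.TW.kodairaNeg_of_not_eff.1 fun h =>
      Pool.Agent.R882.UA.ruled_not_psef M t n hn ht htop (Pool.Agent.W619.TW.psef_of_eff h)
  exact h1 1 le_rfl ω hω hreg D

end Pool.Agent.U1.BL
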