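import Pool.Agent.U1.BL.Mono2
import Pool.Agent.U1.BL.Ruled

/-!
Cycles with null trace on few fibres of a generically finite map to a ruled variety.
-/

set_option autoImplicit false
set_option linter.overlappingInstances false
set_option linter.unusedSectionVars false

open FF Pool.Agent.W603.LV Pool.Agent.N162.BC Pool.Agent.N141.CV Pool.Agent.N162.PR
  Pool.Agent.W602.GT

namespace Pool.Agent.U1.BL

section

variable {L K Ω : Type} [Field L] [Field K] [Algebra ℂ L] [Algebra ℂ K] [Algebra L K]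
  [IsScalarTower ℂ L K] [FiniteDimensional L K] [Field Ω] [Algebra ℂ Ω] [IsAlgClosed Ω] {n : ℕ}

/-- the Jacobian determinant does not vanish -/
theorem jac_ne' {y : Fin n → L} (hy : IsTranscendenceBasis ℂ y) (hΩ : Algebra.trdeg ℂ Ω = n)
    {x : Fin n → Ω} (hx : IsTranscendenceBasis ℂ x) {D : Fin n → Derivation ℂ Ω Ω}
    (hD : ∀ i j, D i (x j) = if i = j then 1 else 0) (q : L →ₐ[ℂ] Ω) :
    (Matrix.of fun i j => D i (q (y j))).det ≠ 0 := by
  classical
  have hzi : AlgebraicIndependent ℂ (fun i => q (y i)) := hy.1.map' (f := q) q.injective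
  have hzb : IsTranscendenceBasis ℂ (fun i => q (y i)) := by
    refine hzi.isTranscendenceBasis_of_lift_trdeg_le_of_finite ?_
    rw [hΩ]
    simp
  choose E hE using fun i : Fin n => Pool.Agent.W602.GT.exists_der _ hzb
    fun j => if i = j then (1 : Ω) else 0
  have h1 : (1 : Matrix (Fin n) (Fin n) Ω) = (Matrix.of fun i k => E i (x k)) *
      (Matrix.of fun k j => D k (q (y j))) := by
    ext i j
    rw [Matrix.mul_apply, Matrix.one_apply]
    simp only [Matrix.of_apply]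
    rw [← hE i j]
    exact der_expand_apply hx hD (E i) _
  have h2 := congrArg Matrix.det h1
  rw [Matrix.det_one, Matrix.det_mul] at h2
  intro h3
  rw [h3, mul_zero] at h2
  exact one_ne_zero h2

/-- the set of the fibres on which `c` is not constant is finite -/
theorem nonconst_finite (c : (K →ₐ[ℂ] Ω) →₀ ℤ) : {q : L →ₐ[ℂ] Ω | ∃ σ τ : K →ₐ[ℂ] Ω,
    restr L Ω σ = q ∧ restr L Ω τ = q ∧ c σ ≠ c τ}.Finite := by
  classical
  refine (c.support.image (restr L Ω)).finite_toSet.subset ?_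
  rintro q ⟨σ, τ, h1, h2, h3⟩
  rw [Finset.mem_coe, Finset.mem_image]
  by_cases h : c σ = 0
  · exact ⟨τ, Finsupp.mem_support_iff.2 fun h' => h3 (by rw [h, h']), h2⟩
  · exact ⟨σ, Finsupp.mem_support_iff.2 h, h1⟩

/-- traces of global forms on a variety without canonical forms are zero -/
theorem trace_zero [Algebra.EssFiniteType ℂ K] (hL : Algebra.trdeg ℂ L = n)
    (hpg : ∀ ω : (Fin n → Derivation ℂ L L) → L, IsPluri 1 ω →
      (∀ P : Place ℂ L, Divisorial n P → RegAt P ω) → ∀ D, ω D = 0)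
    {y : Fin n → L} (hy : IsTranscendenceBasis ℂ y) {v : L} {a : K}
    (hglob : GlobalForm n (stdForm (fun i => algebraMap L K (y i)) (algebraMap L K v * a))) :
    v * Algebra.trace L K a = 0 := by
  have hcL : CharZero L := charZero_of_injective_algebraMap (algebraMap ℂ L).injective
  have hessL : Algebra.EssFiniteType ℂ L := Pool.Agent.TH466.QG.ess_below (K := K)
  choose E hE using fun i : Fin n => Pool.Agent.W602.GT.exists_der y hy
    fun j => if i = j then (1 : L) else 0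
  choose E' hE' using fun i => Pool.Agent.Y172.exists_lift (k := ℂ) (K := L) (L := K) hL (E i)
  have hEK := Pool.Agent.Y172.lift_dual hE hE'
  have h1 := Pool.Agent.Y692.NT.t_Tr L K n hL hpg _ hglob.1 hglob.2 E E' hE'
  rw [stdForm_dual _ _ hEK, ← Algebra.smul_def, map_smul, smul_eq_mul] at h1
  exact h1

/-- **Cycles with null trace which are not constant on few fibres.** -/
theorem const_fibres [Algebra.EssFiniteType ℂ K] (hL : Algebra.trdeg ℂ L = n)
    (hΩ : Algebra.trdeg ℂ Ω = n)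
    (hpg : ∀ ω : (Fin n → Derivation ℂ L L) → L, IsPluri 1 ω →
      (∀ P : Place ℂ L, Divisorial n P → RegAt P ω) → ∀ D, ω D = 0)
    {y : Fin n → L} (hy : IsTranscendenceBasis ℂ y) {A : Set K} {V : Set L}
    (hglob : ∀ a ∈ A, ∀ v ∈ V, GlobalForm n (stdForm (fun i => algebraMap L K (y i))
      (algebraMap L K v * a)))
    (hA : OnlyTraceRelation L K A) {r : ℕ}
    (hV : ∀ U : Finset (L →ₐ[ℂ] Ω), U.card ≤ r → ∀ μ : (L →ₐ[ℂ] Ω) → Ω,
      (∀ v ∈ V, ∑ u ∈ U, μ u * u v = 0) → ∀ u ∈ U, μ u = 0)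
    {c : (K →ₐ[ℂ] Ω) →₀ ℤ} (hc : NullTrace n c)
    (hr : Set.ncard {q : L →ₐ[ℂ] Ω | ∃ σ τ : K →ₐ[ℂ] Ω,
      restr L Ω σ = q ∧ restr L Ω τ = q ∧ c σ ≠ c τ} ≤ r) (σ τ : K →ₐ[ℂ] Ω)
    (hστ : restr L Ω σ = restr L Ω τ) : c σ = c τ := by
  classical
  have hcL : CharZero L := charZero_of_injective_algebraMap (algebraMap ℂ L).injective
  have hessL : Algebra.EssFiniteType ℂ L := Pool.Agent.TH466.QG.ess_below (K := K)
  choose S hS hcard htrS using fun q : L →ₐ[ℂ] Ω => exists_fib (K' := K) q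
  have hQfin := nonconst_finite (L := L) c
  obtain ⟨U, hU⟩ : ∃ U, U = hQfin.toFinset := ⟨_, rfl⟩
  have hUm : ∀ q, q ∈ U ↔ ∃ σ τ : K →ₐ[ℂ] Ω,
      restr L Ω σ = q ∧ restr L Ω τ = q ∧ c σ ≠ c τ := by
    intro q
    rw [hU, Set.Finite.mem_toFinset]
    rfl
  have hUcard : U.card ≤ r := by
    rw [hU, ← Set.ncard_eq_toFinset_card _ hQfin]
    exact hr
  by_contra hne
  have hq0 : restr L Ω σ ∈ U := (hUm _).2 ⟨σ, τ, rfl, hστ.symm, hne⟩
  obtain ⟨x, hx⟩ := exists_tb (k := ℂ) (L := Ω) hΩ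
  choose D hD using fun i : Fin n => Pool.Agent.W602.GT.exists_der x hx
    fun j => if i = j then (1 : Ω) else 0
  choose E hE using fun i : Fin n => Pool.Agent.W602.GT.exists_der y hy
    fun j => if i = j then (1 : L) else 0
  choose E' hE' using fun i => Pool.Agent.Y172.exists_lift (k := ℂ) (K := L) (L := K) hL (E i)
  have hEK := Pool.Agent.Y172.lift_dual hE hE'
  have hyK : IsTranscendenceBasis ℂ (fun j => algebraMap L K (y j)) := hy.algebraMap_comp
  obtain ⟨J, hJ⟩ : ∃ J : (L →ₐ[ℂ] Ω) → Ω, ∀ q, J q = (Matrix.of fun i j => D i (q (y j))).det :=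
    ⟨_, fun _ => rfl⟩
  have hJ0 : ∀ q, J q ≠ 0 := fun q => by
    rw [hJ]
    exact jac_ne' hy hΩ hx hD q
  -- traces
  have htr : ∀ a ∈ A, ∀ v ∈ V, v * Algebra.trace L K a = 0 := by
    intro a ha v hv
    have h1 := Pool.Agent.Y692.NT.t_Tr L K n hL hpg _ (hglob a ha v hv).1 (hglob a ha v hv).2
      E E' hE'
    rw [stdForm_dual _ _ hEK, ← Algebra.smul_def, map_smul, smul_eq_mul] at h1
    exact h1
  -- the relations
  have hrel : ∀ a ∈ A, ∀ u ∈ U, J u * ∑ σ ∈ S u, (c σ : Ω) * σ a = 0 := by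
    intro a ha
    refine hV U hUcard (fun q => J q * ∑ σ ∈ S q, (c σ : Ω) * σ a) fun v hv => ?_
    have h1 := hc _ (hglob a ha v hv) _ E' hyK hEK D
    have h2 : ∀ σ ∈ c.support, (c σ : Ω) * pullback σ (fun j => algebraMap L K (y j)) E'
        (stdForm (fun i => algebraMap L K (y i)) (algebraMap L K v * a)) D =
        J (restr L Ω σ) * restr L Ω σ v * ((c σ : Ω) * σ a) := by
      intro σ _
      unfold pullback
      rw [stdForm_dual _ _ hEK, hJ, map_mul, restr_apply]
      simp only [restr_apply]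
      ring
    rw [Finset.sum_congr rfl h2] at h1
    obtain ⟨I, hI⟩ : ∃ I, I = c.support.image (restr L Ω) ∪ U := ⟨_, rfl⟩
    rw [← Finset.sum_fiberwise_of_maps_to (s := c.support) (t := I) (g := restr L Ω)
      (fun σ hσ => by
        rw [hI]
        exact Finset.mem_union_left _ (Finset.mem_image_of_mem _ hσ))] at h1
    have h3 : ∀ q ∈ I, (∑ σ ∈ c.support with restr L Ω σ = q,
        J (restr L Ω σ) * restr L Ω σ v * ((c σ : Ω) * σ a)) =
        J q * (∑ σ ∈ S q, (c σ : Ω) * σ a) * q v := by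
      intro q _
      have h4 : ∑ σ ∈ S q, (c σ : Ω) * σ a = ∑ σ ∈ c.support with restr L Ω σ = q,
          (c σ : Ω) * σ a := by
        symm
        refine Finset.sum_subset (fun σ hσ => ?_) fun σ hσ hn => ?_
        · rw [Finset.mem_filter] at hσ
          exact (hS q σ).2 hσ.2
        · rw [Finset.mem_filter, not_and, Finsupp.mem_support_iff] at hn
          have h5 : c σ = 0 := by
            by_contra h6
            exact hn h6 ((hS q σ).1 hσ)
          rw [h5, Int.cast_zero, zero_mul]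
      rw [h4, mul_right_comm, Finset.mul_sum]
      refine Finset.sum_congr rfl fun σ hσ => ?_
      rw [Finset.mem_filter] at hσ
      rw [hσ.2]
    rw [Finset.sum_congr rfl h3] at h1
    rw [← h1]
    refine Finset.sum_subset (by rw [hI]; exact Finset.subset_union_right) fun q _ hq => ?_
    -- constant fibres
    have h4 : ∀ σ ∈ S q, ∀ τ ∈ S q, c σ = c τ := by
      intro σ hσ τ hτ
      by_contra h5
      exact hq ((hUm q).2 ⟨σ, τ, (hS q σ).1 hσ, (hS q τ).1 hτ, h5⟩)
    obtain ⟨σ0, hσ0⟩ : ∃ σ0 : K →ₐ[ℂ] Ω, restr L Ω σ0 = q := restr_surj q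
    have h5 : ∑ σ ∈ S q, (c σ : Ω) * σ a = (c σ0 : Ω) * q (Algebra.trace L K a) := by
      rw [← htrS, Finset.mul_sum]
      refine Finset.sum_congr rfl fun σ hσ => ?_
      rw [h4 σ hσ σ0 ((hS q σ0).2 hσ0)]
    rw [h5]
    have h6 : q (Algebra.trace L K a) * q v = 0 := by
      rw [← map_mul, mul_comm, htr a ha v hv, map_zero]
    calc J q * ((c σ0 : Ω) * q (Algebra.trace L K a)) * q v =
        J q * (c σ0 : Ω) * (q (Algebra.trace L K a) * q v) := by ring
      _ = 0 := by rw [h6, mul_zero]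
  -- the fibre of `σ`
  obtain ⟨q, hq⟩ : ∃ q, q = restr L Ω σ := ⟨_, rfl⟩
  rw [← hq] at hq0
  let iL : Algebra L Ω := q.toRingHom.toAlgebra
  have hiL : IsScalarTower ℂ L Ω := IsScalarTower.of_algebraMap_eq fun z => (q.commutes z).symm
  have hover : ∀ ρ : K →ₐ[ℂ] Ω, restr L Ω ρ = q → ∃ ρ' : K →ₐ[L] Ω,
      ρ'.restrictScalars ℂ = ρ := by
    intro ρ hρ
    refine ⟨{ ρ with commutes' := fun a => ?_ }, rfl⟩
    have h1 := congrArg (fun g : L →ₐ[ℂ] Ω => g a) hρ
    exact h1
  have hdown : ∀ ρ' : K →ₐ[L] Ω, restr L Ω (ρ'.restrictScalars ℂ) = q := by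
    intro ρ'
    ext a
    rw [restr_apply]
    exact ρ'.commutes a
  have hcon := only_transfer hA (Ω := Ω) (fun ρ' => c (ρ'.restrictScalars ℂ)) (fun a ha => by
    have h1 := (mul_eq_zero.1 (hrel a ha q hq0)).resolve_left (hJ0 q)
    rw [← h1]
    refine Finset.sum_bij (fun ρ' _ => ρ'.restrictScalars ℂ) ?_ ?_ ?_ ?_
    · intro ρ' _
      exact (hS q _).2 (hdown ρ')
    · intro ρ' _ ρ'' _ h
      exact AlgHom.restrictScalars_injective ℂ h
    · intro ρ hρ
      obtain ⟨ρ', h⟩ := hover ρ ((hS q ρ).1 hρ)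
      exact ⟨ρ', Finset.mem_univ _, h⟩
    · intro ρ' _
      rfl)
  obtain ⟨σ', hσ'⟩ := hover σ hq.symm
  obtain ⟨τ', hτ'⟩ := hover τ (by rw [hq, hστ])
  apply hne
  have h1 := hcon σ' τ'
  rw [← hσ', ← hτ']
  exact h1

/-- all cycles on a ruled variety are rationally equivalent to cycles on fixed divisors -/
theorem rat_top {M : IntermediateField ℂ L} {t : L} (ht : Transcendental M t)
    (htop : IntermediateField.adjoin M {t} = ⊤) (c0 : (L →ₐ[ℂ] Ω) →₀ ℤ) : c0 ∈ Rat L Ω := by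
  classical
  induction c0 using Finsupp.induction_linear with
  | zero => exact zero_mem _
  | add f g hf hg => exact add_mem hf hg
  | single q k =>
    have h1 : Finsupp.single q k = k • Finsupp.single q (1 : ℤ) := by
      rw [Finsupp.smul_single, smul_eq_mul, mul_one]
    rw [h1]
    exact AddSubgroup.zsmul_mem _ (single_mem ht htop q) k

/-- **Cycles which are constant on the fibres of a map to a ruled variety.** -/
theorem rat_of_const (hW : ∀ c : (L →ₐ[ℂ] Ω) →₀ ℤ, c ∈ Rat L Ω) {c : (K →ₐ[ℂ] Ω) →₀ ℤ}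
    (hc : ∀ σ τ : K →ₐ[ℂ] Ω, restr L Ω σ = restr L Ω τ → c σ = c τ) : c ∈ Rat K Ω := by
  classical
  choose s hs using fun q : L →ₐ[ℂ] Ω => restr_surj (K' := K) q
  let c0 : (L →ₐ[ℂ] Ω) →₀ ℤ := Finsupp.onFinset (c.support.image (restr L Ω))
    (fun q => c (s q)) (fun q hq => Finset.mem_image.2 ⟨s q, Finsupp.mem_support_iff.2 hq, hs q⟩)
  have hc0 : ∀ q, c0 q = c (s q) := fun q => rfl
  refine rat_pull (hW c0) c fun σ => ?_
  rw [hc0]
  exact hc σ _ (hs _).symm

end

end Pool.Agent.U1.BL
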