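import Mathlib

/-!
Rational relations between the conjugates of an element of a finite extension.
-/

set_option autoImplicit false
set_option linter.unusedSectionVars false

open Polynomial

namespace Pool.Agent.U1.BL

section perm

variable {J : Type} [Fintype J] [DecidableEq J]

/-- the indicator function -/
def ind (x : J) : J → ℚ := fun y => if y = x then 1 else 0

theorem sum_zero_mem (R : Submodule ℚ (J → ℚ)) (x0 : J)
    (h : ∀ x, (fun y => ind x y - ind x0 y) ∈ R) (c : J → ℚ) (hc : ∑ x, c x = 0) : c ∈ R := by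
  have h1 : c = ∑ x, c x • (fun y => ind x y - ind x0 y) := by
    funext y
    rw [Finset.sum_apply]
    simp only [Pi.smul_apply, smul_eq_mul, mul_sub, Finset.sum_sub_distrib, ind]
    rw [← Finset.sum_mul, hc, zero_mul, sub_zero]
    simp
  rw [h1]
  exact Submodule.sum_mem _ fun x _ => Submodule.smul_mem _ _ (h x)

variable {G : Type} [Group G] [MulAction G J]

/-- translation of functions -/
theorem sub_ind_of_two (htwo : ∀ x y x' y' : J, x ≠ y → x' ≠ y' → ∃ g : G, g • x = x' ∧ g • y = y')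
    (R : Submodule ℚ (J → ℚ)) (hR : ∀ g : G, ∀ c ∈ R, (fun x => c (g • x)) ∈ R) {c : J → ℚ}
    (hc : c ∈ R) {a b : J} (hab : c a ≠ c b) (c' : J → ℚ) (hc' : ∑ x, c' x = 0) : c' ∈ R := by
  classical
  have hne : a ≠ b := fun h => hab (by rw [h])
  -- a point at which `c` is not the average
  obtain ⟨n, hn⟩ : ∃ n : ℚ, n = Fintype.card J := ⟨_, rfl⟩
  obtain ⟨s, hs⟩ : ∃ s : ℚ, s = ∑ x, c x := ⟨_, rfl⟩
  obtain ⟨x0, hx0⟩ : ∃ x0, n * c x0 ≠ s := by
    by_contra hcon
    push Not at hcon
    have h1 : n ≠ 0 := by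
      rw [hn]
      have : 0 < Fintype.card J := Fintype.card_pos_iff.2 ⟨a⟩
      positivity
    apply hab
    apply mul_left_cancel₀ h1
    rw [hcon, hcon]
  -- the finite group
  let H : Finset (Equiv.Perm J) := Finset.univ.filter fun p =>
    p x0 = x0 ∧ ∃ g : G, ∀ x, g • x = p x
  have hHm : ∀ p, p ∈ H ↔ p x0 = x0 ∧ ∃ g : G, ∀ x, g • x = p x := fun p => by
    simp [H]
  let d : J → ℚ := fun x => ∑ p ∈ H, c (p x)
  have hd : d ∈ R := by
    have h1 : d = ∑ p ∈ H, fun x => c (p x) := by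
      funext x
      rw [Finset.sum_apply]
    rw [h1]
    refine Submodule.sum_mem _ fun p hp => ?_
    obtain ⟨-, g, hg⟩ := (hHm p).1 hp
    have h2 := hR g c hc
    simp only [hg] at h2
    exact h2
  have hinv : ∀ p0 ∈ H, ∀ x, d (p0 x) = d x := by
    intro p0 hp0 x
    obtain ⟨h1, g0, hg0⟩ := (hHm p0).1 hp0
    refine Finset.sum_bij (fun p _ => p * p0) ?_ ?_ ?_ ?_
    · intro p hp
      obtain ⟨h2, g, hg⟩ := (hHm p).1 hp
      refine (hHm _).2 ⟨by rw [Equiv.Perm.mul_apply, h1, h2], g * g0, fun x => ?_⟩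
      rw [mul_smul, hg0, hg, Equiv.Perm.mul_apply]
    · intro p _ p' _ h
      exact mul_right_cancel h
    · intro p hp
      obtain ⟨h2, g, hg⟩ := (hHm p).1 hp
      refine ⟨p * p0⁻¹, (hHm _).2 ⟨?_, g * g0⁻¹, fun x => ?_⟩, by rw [inv_mul_cancel_right]⟩
      · rw [Equiv.Perm.mul_apply]
        have h3 : p0⁻¹ x0 = x0 := by
          rw [Equiv.Perm.inv_eq_iff_eq]
          exact h1.symm
        rw [h3, h2]
      · rw [mul_smul, hg, Equiv.Perm.mul_apply]
        congr 1
        rw [inv_smul_eq_iff, hg0]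
        simp
    · intro p _
      rw [Equiv.Perm.mul_apply]
  have htr : ∀ x y, x ≠ x0 → y ≠ x0 → d x = d y := by
    intro x y hx hy
    obtain ⟨g, hg1, hg2⟩ := htwo x0 x x0 y hx.symm hy.symm
    have h1 : MulAction.toPerm g ∈ H := (hHm _).2 ⟨hg1, g, fun x => rfl⟩
    have h2 := hinv _ h1 x
    rw [← h2]
    have h3 : (MulAction.toPerm g : Equiv.Perm J) x = y := hg2
    rw [h3]
  have hsum : ∑ x, d x = H.card * s := by
    change ∑ x, ∑ p ∈ H, c (p x) = _
    rw [Finset.sum_comm, Finset.sum_congr rfl fun p _ => (Equiv.sum_comp p c), Finset.sum_const,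
      hs, nsmul_eq_mul]
  have hd0 : d x0 = H.card * c x0 := by
    change ∑ p ∈ H, c (p x0) = _
    rw [Finset.sum_congr rfl fun p hp => by rw [((hHm p).1 hp).1], Finset.sum_const, nsmul_eq_mul]
  have hHne : (H.card : ℚ) ≠ 0 := by
    have h1 : (1 : Equiv.Perm J) ∈ H := (hHm _).2 ⟨rfl, 1, fun x => by rw [one_smul]; rfl⟩
    have h2 := Finset.card_pos.2 ⟨_, h1⟩
    positivity
  -- `d` is not constant
  obtain ⟨y0, hy0⟩ : ∃ y0, y0 ≠ x0 := by
    by_cases h : a = x0
    · exact ⟨b, fun h' => hne (by rw [h, h'])⟩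
    · exact ⟨a, h⟩
  have hdne : d x0 ≠ d y0 := by
    intro h
    have h1 : ∀ x, d x = d x0 := by
      intro x
      by_cases hx : x = x0
      · rw [hx]
      · rw [htr x y0 hx hy0, h]
    apply hx0
    apply mul_left_cancel₀ hHne
    rw [← hsum, Finset.sum_congr rfl fun x _ => h1 x, Finset.sum_const, hd0, hn, nsmul_eq_mul,
      Finset.card_univ]
    ring
  have hdx : ∀ x, d x = d y0 + (d x0 - d y0) * ind x0 x := by
    intro x
    unfold ind
    by_cases hx : x = x0
    · rw [hx, if_pos rfl]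
      ring
    · rw [if_neg hx, htr x y0 hx hy0]
      ring
  refine sum_zero_mem R x0 (fun x => ?_) c' hc'
  by_cases hx : x = x0
  · rw [hx]
    have : (fun y => ind x0 y - ind x0 y) = (0 : J → ℚ) := by
      funext y
      simp
    rw [this]
    exact zero_mem _
  obtain ⟨g, hg1, -⟩ := htwo x x0 x0 x hx (Ne.symm hx)
  have h1 := hR g d hd
  have h2 : (fun y => ind x y - ind x0 y) =
      (d x0 - d y0)⁻¹ • ((fun y => d (g • y)) - d) := by
    funext y
    rw [Pi.smul_apply, Pi.sub_apply, hdx (g • y), hdx y]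
    have h3 : ind x0 (g • y) = ind x y := by
      unfold ind
      congr 1
      rw [eq_iff_iff]
      constructor
      · intro h
        rw [← hg1] at h
        exact MulAction.injective g h
      · rintro rfl
        exact hg1
    rw [h3, smul_eq_mul]
    have h4 : d x0 - d y0 ≠ 0 := sub_ne_zero.2 hdne
    field_simp
    ring
  rw [h2]
  exact Submodule.smul_mem _ _ (Submodule.sub_mem _ h1 hd)

/-- prime degree -/
theorem sub_ind_of_prime (hp : (Fintype.card J).Prime)
    (htr : ∀ x y : J, ∃ g : G, g • x = y)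
    (R : Submodule ℚ (J → ℚ)) (hR : ∀ g : G, ∀ c ∈ R, (fun x => c (g • x)) ∈ R) {c : J → ℚ}
    (hc : c ∈ R) {a b : J} (hab : c a ≠ c b) (c' : J → ℚ) (hc' : ∑ x, c' x = 0) : c' ∈ R := by
  classical
  obtain ⟨p, hpX⟩ : ∃ p, p = Fintype.card J := ⟨_, rfl⟩
  have hpp : p.Prime := by rw [hpX]; exact hp
  have : Fact p.Prime := ⟨hpp⟩
  -- an element of order `p`
  let P : Subgroup (Equiv.Perm J) := (MulAction.toPermHom G J).range
  have hPfin : Finite P := inferInstance
  have hdvd : p ∣ Nat.card P := by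
    have h1 : MulAction.orbit P a = Set.univ := by
      rw [Set.eq_univ_iff_forall]
      intro y
      obtain ⟨g, hg⟩ := htr a y
      exact ⟨⟨MulAction.toPermHom G J g, g, rfl⟩, hg⟩
    have h2 := MulAction.card_orbit_mul_card_stabilizer_eq_card_group P a
    rw [← Nat.card_eq_fintype_card, ← Nat.card_eq_fintype_card, ← Nat.card_eq_fintype_card, h1,
      Nat.card_eq_fintype_card, Fintype.card_setUniv, ← hpX] at h2
    exact Dvd.intro _ h2
  obtain ⟨γ', hγ'⟩ := exists_prime_orderOf_dvd_card' p hdvd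
  obtain ⟨γ, hγγ⟩ : ∃ γ : Equiv.Perm J, γ = (γ' : Equiv.Perm J) := ⟨_, rfl⟩
  have hγ : orderOf γ = p := by
    rw [hγγ, Subgroup.orderOf_coe, hγ']
  obtain ⟨g, hg⟩ : ∃ g : G, ∀ x, g • x = γ x := by
    obtain ⟨g, hg⟩ := γ'.2
    refine ⟨g, fun x => ?_⟩
    rw [hγγ, ← hg]
    rfl
  have hcyc : γ.IsCycle := Equiv.Perm.isCycle_of_prime_order'' hp (hγ.trans hpX)
  have hsupp : γ.support = Finset.univ := by
    rw [← Finset.card_eq_iff_eq_univ, ← hcyc.orderOf, hγ, hpX]
  -- the orbit of `a`
  have horb : ∀ x, ∃ i < p, (γ ^ i) a = x := by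
    intro x
    have h1 : γ.SameCycle a x := hcyc.sameCycle (by
      rw [← Equiv.Perm.mem_support, hsupp]
      exact Finset.mem_univ _) (by
      rw [← Equiv.Perm.mem_support, hsupp]
      exact Finset.mem_univ _)
    obtain ⟨i, hi, h2⟩ := h1.exists_pow_eq'
    rw [hγ] at hi
    exact ⟨i, hi, h2⟩
  have hinjo : Set.InjOn (fun i => (γ ^ i) a) (Finset.range p) := by
    refine Finset.injOn_of_surjOn_of_card_le (t := Finset.univ) _ (fun _ _ => Finset.mem_univ _)
      (fun x _ => ?_) (by rw [Finset.card_range, hpX, Finset.card_univ])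
    obtain ⟨i, hi, h⟩ := horb x
    exact ⟨i, Finset.mem_coe.2 (Finset.mem_range.2 hi), h⟩
  have hsumo : ∀ f : J → ℚ, ∑ i ∈ Finset.range p, f ((γ ^ i) a) = ∑ x, f x := by
    intro f
    have h1 : (Finset.univ : Finset J) = (Finset.range p).image fun i => (γ ^ i) a := by
      ext x
      simp only [Finset.mem_univ, Finset.mem_image, Finset.mem_range, true_iff]
      exact horb x
    rw [h1, Finset.sum_image hinjo]
  -- the operator
  let T : Module.End ℚ (J → ℚ) := LinearMap.funLeft ℚ ℚ γ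
  have hT : ∀ f x, T f x = f (γ x) := fun f x => rfl
  have hTpow : ∀ i f x, (T ^ i) f x = f ((γ ^ i) x) := by
    intro i
    induction i with
    | zero => intro f x; simp
    | succ i ih =>
      intro f x
      rw [pow_succ, Module.End.mul_apply, ih, hT, ← Equiv.Perm.mul_apply, ← pow_succ']
  have hTR : ∀ f ∈ R, T f ∈ R := by
    intro f hf
    have h1 := hR g f hf
    simp only [hg] at h1
    exact h1
  have hTRp : ∀ (q : ℚ[X]) (f), f ∈ R → aeval T q f ∈ R := by
    intro q f hf
    induction q using Polynomial.induction_on' with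
    | add q r hq hr =>
      rw [map_add, LinearMap.add_apply]
      exact add_mem hq hr
    | monomial n z =>
      rw [aeval_monomial, Module.End.mul_apply, Module.algebraMap_end_apply]
      refine Submodule.smul_mem _ _ ?_
      induction n with
      | zero => simpa using hf
      | succ n ih =>
        rw [pow_succ', Module.End.mul_apply]
        exact hTR _ ih
  have hTp : T ^ p = 1 := by
    apply LinearMap.ext
    intro f
    funext x
    rw [hTpow, ← hγ, pow_orderOf_eq_one]
    rfl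
  -- cyclotomic polynomial
  have hΦ : ∀ f, aeval T (cyclotomic p ℚ) f = fun _ => ∑ x, f x := by
    intro f
    funext y
    rw [cyclotomic_prime, map_sum, LinearMap.sum_apply, Finset.sum_apply]
    have h1 : ∀ i ∈ Finset.range p, (aeval T ((X : ℚ[X]) ^ i)) f y = f ((γ ^ i) y) := by
      intro i _
      rw [map_pow, aeval_X, hTpow]
    rw [Finset.sum_congr rfl h1]
    obtain ⟨j, -, rfl⟩ := horb y
    have h2 : ∀ i, f ((γ ^ i) ((γ ^ j) a)) = f ((γ ^ j) ((γ ^ i) a)) := by
      intro i
      rw [← Equiv.Perm.mul_apply, ← Equiv.Perm.mul_apply, ← pow_add, ← pow_add, add_comm]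
    rw [Finset.sum_congr rfl fun i _ => h2 i, hsumo fun x => f ((γ ^ j) x)]
    exact Equiv.sum_comp (γ ^ j) f
  -- `c` in terms of the indicator of `a`
  let F : ℚ[X] := ∑ k ∈ Finset.range p, C (c ((γ ^ k) a)) * X ^ (p - k)
  have hF : aeval T F (ind a) = c := by
    funext y
    change aeval T (∑ k ∈ Finset.range p, C (c ((γ ^ k) a)) * X ^ (p - k)) (ind a) y = c y
    rw [map_sum, LinearMap.sum_apply, Finset.sum_apply]
    have h1 : ∀ k ∈ Finset.range p, (aeval T (C (c ((γ ^ k) a)) * (X : ℚ[X]) ^ (p - k))) (ind a) y =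
        c ((γ ^ k) a) * (if y = (γ ^ k) a then 1 else 0) := by
      intro k hk
      rw [Finset.mem_range] at hk
      rw [map_mul, map_pow, aeval_X, aeval_C, Module.End.mul_apply, Module.algebraMap_end_apply,
        Pi.smul_apply, hTpow, smul_eq_mul]
      congr 1
      unfold ind
      congr 1
      rw [eq_iff_iff]
      have h2 : γ ^ (p - k) = (γ ^ k)⁻¹ := by
        rw [eq_inv_iff_mul_eq_one, ← pow_add, Nat.sub_add_cancel hk.le, ← hγ, pow_orderOf_eq_one]
      rw [h2, Equiv.Perm.inv_eq_iff_eq]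
    rw [Finset.sum_congr rfl h1, hsumo fun x => c x * (if y = x then 1 else 0)]
    simp
  have hcop : IsCoprime F (cyclotomic p ℚ) := by
    rw [isCoprime_comm]
    refine ((cyclotomic.irreducible_rat hpp.pos).coprime_iff_not_dvd).2 ?_
    rintro ⟨r, hr⟩
    apply hab
    have h1 : c = fun _ => ∑ x, (aeval T r (ind a)) x := by
      rw [← hΦ, ← Module.End.mul_apply, ← map_mul, ← hr, hF]
    rw [h1]
  obtain ⟨u, w, huw⟩ := hcop
  have hgeo : (X - 1) * cyclotomic p ℚ = X ^ p - 1 := by
    rw [mul_comm]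
    exact cyclotomic_prime_mul_X_sub_one ℚ p
  have hkey : T (ind a) - ind a ∈ R := by
    have h1 : aeval T ((X - 1 : ℚ[X])) (ind a) = T (ind a) - ind a := by
      rw [map_sub, aeval_X, map_one, LinearMap.sub_apply, Module.End.one_apply]
    have h2 : (X - 1 : ℚ[X]) = (u * (X - 1)) * F + w * (X ^ p - 1) := by
      rw [← hgeo]
      linear_combination (-(X - 1 : ℚ[X])) * huw
    rw [← h1, h2, map_add, LinearMap.add_apply, map_mul, Module.End.mul_apply, hF, map_mul (aeval T) w,
      Module.End.mul_apply]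
    have h3 : aeval T ((X : ℚ[X]) ^ p - 1) = 0 := by
      rw [map_sub, map_pow, aeval_X, hTp, map_one, sub_self]
    rw [h3, LinearMap.zero_apply, map_zero, add_zero]
    exact hTRp _ _ hc
  -- conclusion
  have hstep : ∀ k : ℕ, (T ^ k) (ind a) - ind a ∈ R := by
    intro k
    induction k with
    | zero => simp
    | succ k ih =>
      have h1 : (T ^ (k + 1)) (ind a) - ind a = T ((T ^ k) (ind a) - ind a) +
          (T (ind a) - ind a) := by
        rw [map_sub, pow_succ', Module.End.mul_apply]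
        abel
      rw [h1]
      exact add_mem (hTR _ ih) hkey
  refine sum_zero_mem R a (fun x => ?_) c' hc'
  obtain ⟨i, hi, rfl⟩ := horb x
  have h1 := hstep (p - i)
  have h2 : (fun y => ind ((γ ^ i) a) y - ind a y) = (T ^ (p - i)) (ind a) - ind a := by
    funext y
    rw [Pi.sub_apply, hTpow]
    congr 1
    unfold ind
    congr 1
    rw [eq_iff_iff]
    have h2 : γ ^ (p - i) = (γ ^ i)⁻¹ := by
      rw [eq_inv_iff_mul_eq_one, ← pow_add, Nat.sub_add_cancel hi.le, ← hγ, pow_orderOf_eq_one]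
    rw [h2, Equiv.Perm.inv_eq_iff_eq]
  rw [h2]
  exact h1

end perm

end Pool.Agent.U1.BL
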