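import Pool.Agent.U1.BL.Mono

/-!
Rational relations between the conjugates of an element of a finite extension: field extensions.
-/

set_option autoImplicit false
set_option linter.unusedSectionVars false

namespace Pool.Agent.U1.BL

section

variable (L K : Type) [Field L] [Field K] [Algebra L K] [FiniteDimensional L K]

/-- The monodromy representation of the finite extension `K` of `L` is irreducible over `ℚ` up to
the constants: every subspace of the space of rational functions on the set of the embeddings of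
`K` in an algebraic closure of `L` which is stable under the Galois group contains only constant
functions, or it contains all functions with sum zero. -/
def IrreducibleMonodromy : Prop :=
  ∀ R : Submodule ℚ ((K →ₐ[L] AlgebraicClosure L) → ℚ),
    (∀ g : AlgebraicClosure L ≃ₐ[L] AlgebraicClosure L, ∀ c ∈ R, (fun σ =>
      c ((g : AlgebraicClosure L →ₐ[L] AlgebraicClosure L).comp σ)) ∈ R) →
    (∀ c ∈ R, ∀ σ τ, c σ = c τ) ∨ ∀ c, ∑ σ, c σ = 0 → c ∈ R

/-- The monodromy group of `K` over `L` is doubly transitive. -/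
def DoublyTransitive : Prop :=
  ∀ σ₁ σ₂ τ₁ τ₂ : K →ₐ[L] AlgebraicClosure L, σ₁ ≠ σ₂ → τ₁ ≠ τ₂ →
    ∃ g : AlgebraicClosure L ≃ₐ[L] AlgebraicClosure L,
      (g : AlgebraicClosure L →ₐ[L] AlgebraicClosure L).comp σ₁ = τ₁ ∧
      (g : AlgebraicClosure L →ₐ[L] AlgebraicClosure L).comp σ₂ = τ₂

/-- The only rational relations which are satisfied by the conjugates of every element of `A` are
multiples of the relation that the trace is zero. -/
def OnlyTraceRelation (A : Set K) : Prop :=
  ∀ m : (K →ₐ[L] AlgebraicClosure L) → ℤ,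
    (∀ a ∈ A, ∑ σ, (m σ : AlgebraicClosure L) * σ a = 0) → ∀ σ τ, m σ = m τ

/-- the Galois group acts on the embeddings -/
@[reducible]
noncomputable def gact : MulAction (AlgebraicClosure L ≃ₐ[L] AlgebraicClosure L)
    (K →ₐ[L] AlgebraicClosure L) where
  smul g σ := (g : AlgebraicClosure L →ₐ[L] AlgebraicClosure L).comp σ
  one_smul σ := by
    ext a
    rfl
  mul_smul g h σ := by
    ext a
    rfl

variable {L K}

theorem exists_gal [CharZero L] (σ τ : K →ₐ[L] AlgebraicClosure L) :
    ∃ g : AlgebraicClosure L ≃ₐ[L] AlgebraicClosure L,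
      (g : AlgebraicClosure L →ₐ[L] AlgebraicClosure L).comp σ = τ := by
  let pb : PowerBasis L K := Field.powerBasisOfFiniteOfSeparable L K
  have h1 : minpoly L (τ pb.gen) = minpoly L (σ pb.gen) := by
    rw [minpoly.algHom_eq τ τ.toRingHom.injective, minpoly.algHom_eq σ σ.toRingHom.injective]
  obtain ⟨g, hg⟩ := (Normal.minpoly_eq_iff_mem_orbit ..).1 h1
  exact ⟨g, pb.algHom_ext hg⟩

theorem irr_of_doubly (h : DoublyTransitive L K) : IrreducibleMonodromy L K := by
  classical
  let _ := gact L K
  intro R hR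
  by_cases hc : ∀ c ∈ R, ∀ σ τ, c σ = c τ
  · exact Or.inl hc
  · push Not at hc
    obtain ⟨c, hc, σ, τ, hne⟩ := hc
    exact Or.inr fun c' hc' => sub_ind_of_two (G := AlgebraicClosure L ≃ₐ[L] AlgebraicClosure L)
      (fun σ₁ σ₂ τ₁ τ₂ h1 h2 => h σ₁ σ₂ τ₁ τ₂ h1 h2) R hR hc hne c' hc'

theorem irr_of_prime [CharZero L] (h : (Module.finrank L K).Prime) : IrreducibleMonodromy L K := by
  classical
  let _ := gact L K
  intro R hR
  by_cases hc : ∀ c ∈ R, ∀ σ τ, c σ = c τ
  · exact Or.inl hc
  · push Not at hc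
    obtain ⟨c, hc, σ, τ, hne⟩ := hc
    exact Or.inr fun c' hc' => sub_ind_of_prime (G := AlgebraicClosure L ≃ₐ[L] AlgebraicClosure L)
      (by rw [AlgHom.card]; exact h) (fun σ τ => exists_gal σ τ) R hR hc hne c' hc'

/-- irreducible monodromy, one element -/
theorem only_of_irr [CharZero L] (h : IrreducibleMonodromy L K) {A : Set K} {a : K} (ha : a ∈ A)
    (hna : a ∉ Set.range (algebraMap L K)) : OnlyTraceRelation L K A := by
  classical
  intro m hm
  have hm1 := hm a ha
  let R : Submodule ℚ ((K →ₐ[L] AlgebraicClosure L) → ℚ) :=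
    { carrier := {c | ∑ σ, (c σ : AlgebraicClosure L) * σ a = 0}
      add_mem' := by
        intro c d hc hd
        change ∑ σ, (((c + d) σ : ℚ) : AlgebraicClosure L) * σ a = 0
        have h1 : ∑ σ, (c σ : AlgebraicClosure L) * σ a = 0 := hc
        have h2 : ∑ σ, (d σ : AlgebraicClosure L) * σ a = 0 := hd
        simp only [Pi.add_apply, Rat.cast_add, add_mul, Finset.sum_add_distrib]
        rw [h1, h2, add_zero]
      zero_mem' := by
        change ∑ σ, (((0 : (K →ₐ[L] AlgebraicClosure L) → ℚ) σ : ℚ) : AlgebraicClosure L) * σ a = 0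
        simp
      smul_mem' := by
        intro r c hc
        change ∑ σ, (((r • c) σ : ℚ) : AlgebraicClosure L) * σ a = 0
        have h1 : ∑ σ, (c σ : AlgebraicClosure L) * σ a = 0 := hc
        simp only [Pi.smul_apply, smul_eq_mul, Rat.cast_mul, mul_assoc]
        rw [← Finset.mul_sum, h1, mul_zero] }
  have hRm : ∀ c, c ∈ R ↔ ∑ σ, (c σ : AlgebraicClosure L) * σ a = 0 := fun c => Iff.rfl
  have hstab : ∀ g : AlgebraicClosure L ≃ₐ[L] AlgebraicClosure L, ∀ c ∈ R, (fun σ =>
      c ((g : AlgebraicClosure L →ₐ[L] AlgebraicClosure L).comp σ)) ∈ R := by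
    intro g c hc
    rw [hRm] at hc ⊢
    apply g.injective
    rw [map_zero, map_sum, ← hc]
    let _ := gact L K
    have h1 : ∀ σ : K →ₐ[L] AlgebraicClosure L,
        g ((c ((g : AlgebraicClosure L →ₐ[L] AlgebraicClosure L).comp σ) : AlgebraicClosure L) *
          σ a) = (c (MulAction.toPerm g σ) : AlgebraicClosure L) * (MulAction.toPerm g σ) a := by
      intro σ
      rw [map_mul, map_ratCast]
      rfl
    rw [Finset.sum_congr rfl fun σ _ => h1 σ]
    exact Equiv.sum_comp (MulAction.toPerm g) fun σ => (c σ : AlgebraicClosure L) * σ a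
  rcases h R hstab with h1 | h1
  · intro σ τ
    have h2 : (fun σ => (m σ : ℚ)) ∈ R := by
      rw [hRm, ← hm1]
      refine Finset.sum_congr rfl fun σ _ => ?_
      rw [Rat.cast_intCast]
    have h3 := h1 _ h2 σ τ
    exact_mod_cast h3
  · exfalso
    apply hna
    have hall : ∀ σ τ : K →ₐ[L] AlgebraicClosure L, σ a = τ a := by
      intro σ τ
      by_cases hst : σ = τ
      · rw [hst]
      have h2 := h1 (fun ρ => (if ρ = σ then 1 else 0) - (if ρ = τ then 1 else 0)) (by
        rw [Finset.sum_sub_distrib]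
        simp)
      rw [hRm] at h2
      simp only [Rat.cast_sub, sub_mul, Finset.sum_sub_distrib] at h2
      have h3 : ∀ ρ0 : K →ₐ[L] AlgebraicClosure L, ∑ ρ : K →ₐ[L] AlgebraicClosure L,
          (((if ρ = ρ0 then 1 else 0 : ℚ)) : AlgebraicClosure L) * ρ a = ρ0 a := by
        intro ρ0
        rw [Finset.sum_eq_single ρ0]
        · rw [if_pos rfl, Rat.cast_one, one_mul]
        · intro ρ _ hρ
          rw [if_neg hρ, Rat.cast_zero, zero_mul]
        · intro h
          exact absurd (Finset.mem_univ _) h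
      rw [h3, h3] at h2
      exact sub_eq_zero.1 h2
    have hn : (Module.finrank L K : L) ≠ 0 := by
      have : 0 < Module.finrank L K := Module.finrank_pos
      exact_mod_cast this.ne'
    refine ⟨Algebra.trace L K a / Module.finrank L K, ?_⟩
    obtain ⟨σ⟩ : Nonempty (K →ₐ[L] AlgebraicClosure L) :=
      ⟨IsAlgClosed.lift (R := L) (M := AlgebraicClosure L) (S := K)⟩
    apply σ.toRingHom.injective
    change σ (algebraMap L K (Algebra.trace L K a / Module.finrank L K)) = σ a
    rw [AlgHom.commutes, map_div₀, trace_eq_sum_embeddings (AlgebraicClosure L),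
      Finset.sum_congr rfl fun τ _ => hall τ σ, Finset.sum_const, Finset.card_univ, AlgHom.card,
      nsmul_eq_mul, map_natCast, mul_div_assoc]
    have hn' : (Module.finrank L K : AlgebraicClosure L) ≠ 0 := by
      have h2 := (_root_.map_ne_zero (algebraMap L (AlgebraicClosure L))).2 hn
      rwa [map_natCast] at h2
    field_simp

/-- transfer to another algebraically closed field -/
theorem only_transfer [CharZero L] {A : Set K} (h : OnlyTraceRelation L K A) {Ω : Type} [Field Ω]
    [IsAlgClosed Ω] [Algebra L Ω] (m : (K →ₐ[L] Ω) → ℤ)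
    (hm : ∀ a ∈ A, ∑ σ, (m σ : Ω) * σ a = 0) : ∀ σ τ, m σ = m τ := by
  classical
  let j : AlgebraicClosure L →ₐ[L] Ω := IsAlgClosed.lift
  let e : (K →ₐ[L] AlgebraicClosure L) → (K →ₐ[L] Ω) := fun ρ => j.comp ρ
  have hinj : Function.Injective e := by
    intro ρ ρ' hρ
    ext a
    apply j.toRingHom.injective
    exact congrArg (fun g : K →ₐ[L] Ω => g a) hρ
  have hbij : Function.Bijective e := by
    rw [Fintype.bijective_iff_injective_and_card]
    exact ⟨hinj, by rw [AlgHom.card, AlgHom.card]⟩
  have h1 := h (fun ρ => m (e ρ)) (fun a ha => by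
    apply j.toRingHom.injective
    rw [map_zero, map_sum, ← hm a ha]
    have h2 : ∀ ρ : K →ₐ[L] AlgebraicClosure L,
        j.toRingHom ((m (e ρ) : AlgebraicClosure L) * ρ a) = (m (e ρ) : Ω) * (e ρ) a := by
      intro ρ
      rw [map_mul, map_intCast]
      rfl
    rw [Finset.sum_congr rfl fun ρ _ => h2 ρ]
    exact hbij.sum_comp fun σ => (m σ : Ω) * σ a)
  intro σ τ
  obtain ⟨ρ, rfl⟩ := hbij.2 σ
  obtain ⟨ρ', rfl⟩ := hbij.2 τ
  exact h1 ρ ρ'

end

end Pool.Agent.U1.BL
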