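import Pool.Agent.N162.PR.Lift
import Pool.Agent.N75.CV.NF
import Pool.Agent.N141.CV.C3b

/-!
Pullback of rational equivalence of families of zero-cycles under a generically finite map.
-/

set_option autoImplicit false
set_option linter.overlappingInstances false
set_option linter.unusedSectionVars false

open FF Polynomial Pool.Agent.W603.LV Pool.Agent.N162.BC Pool.Agent.N141.CV Pool.Agent.N162.PR

namespace Pool.Agent.U1.BL

section

variable {L K Ω E : Type} [Field L] [Field K] [Algebra ℂ L] [Algebra ℂ K] [Algebra L K]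
  [IsScalarTower ℂ L K] [FiniteDimensional L K] [Field Ω] [Algebra ℂ Ω]
  [Field E] [Algebra Ω E]

/-- the extension of a map to a factor of the tensor product -/
theorem exists_tau (pb : PowerBasis L K) (τ0 : L →+* E) {g : E[X]} [Fact (Irreducible g)]
    (hg : g ∣ (minpoly L pb.gen).map τ0) : ∃ τ : K →+* AdjoinRoot g,
      (∀ a : L, τ (algebraMap L K a) = algebraMap E (AdjoinRoot g) (τ0 a)) ∧
      τ pb.gen = AdjoinRoot.root g := by
  let i1 : Algebra L (AdjoinRoot g) := ((algebraMap E (AdjoinRoot g)).comp τ0).toAlgebra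
  have h1 : aeval (AdjoinRoot.root g) (minpoly L pb.gen) = 0 := by
    obtain ⟨r, hr⟩ := hg
    have h2 : aeval (AdjoinRoot.root g) ((minpoly L pb.gen).map τ0) = 0 := by
      rw [hr, map_mul, AdjoinRoot.aeval_eq, AdjoinRoot.mk_self, zero_mul]
    rw [aeval_def, eval₂_map] at h2
    rw [aeval_def]
    exact h2
  refine ⟨(pb.lift (AdjoinRoot.root g) h1 : K →ₐ[L] AdjoinRoot g), fun a => ?_,
    pb.lift_gen _ h1⟩
  exact (pb.lift (AdjoinRoot.root g) h1).commutes a

theorem ge_one_mul {v : Place Ω E} {x y : E} (h : Ge v 1 (x * y)) : Ge v 1 x ∨ Ge v 1 y := by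
  by_cases hx : x = 0
  · exact Or.inl (Or.inl hx)
  by_cases hy : y = 0
  · exact Or.inr (Or.inl hy)
  have h1 := h.resolve_left (mul_ne_zero hx hy)
  rw [v.ord_mul hx hy] at h1
  by_contra hcon
  push Not at hcon
  have h2 : ¬ (1 ≤ v.ord x) := fun h => hcon.1 (Or.inr h)
  have h3 : ¬ (1 ≤ v.ord y) := fun h => hcon.2 (Or.inr h)
  omega

theorem not_ge_one_one {v : Place Ω E} : ¬ Ge v 1 (1 : E) := by
  rintro (h | h)
  · exact one_ne_zero h
  · rw [Place.ord_one] at h
    omega

/-- the value of a polynomial with regular coefficients -/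
theorem eval_ge {q : L →ₐ[ℂ] Ω} {τ0 : L →+* E} {v : Place Ω E} (hv : CentredAt τ0 v q)
    (p : L[X]) (ζ : Ω) : Ge v 1 ((p.map τ0).eval (algebraMap Ω E ζ) -
      algebraMap Ω E ((p.map (q : L →+* Ω)).eval ζ)) := by
  rw [centred_iff] at hv
  induction p using Polynomial.induction_on' with
  | add p r hp hr =>
    rw [Polynomial.map_add, Polynomial.map_add, eval_add, eval_add, map_add, add_sub_add_comm]
    exact hp.add hr
  | monomial n a =>
    rw [Polynomial.map_monomial, Polynomial.map_monomial, eval_monomial, eval_monomial, map_mul,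
      map_pow, ← sub_mul]
    have h1 := (hv a).mul (Ge.const (P := v) (ζ ^ n))
    rw [add_zero, map_pow] at h1
    exact h1

end

section

variable {L K Ω E M : Type} [Field L] [Field K] [Algebra ℂ L] [Algebra ℂ K] [Algebra L K]
  [IsScalarTower ℂ L K] [FiniteDimensional L K] [Field Ω] [Algebra ℂ Ω] [IsAlgClosed Ω]
  [Field E] [Algebra Ω E] [IsFF Ω E] [Field M] [Algebra Ω M] [Algebra E M] [IsScalarTower Ω E M]
  [FiniteDimensional E M] [IsFF Ω M]

/-- a finitely supported cycle -/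
theorem exists_fs (τ : K →+* M) (f : M) : ∃ c : (K →ₐ[ℂ] Ω) →₀ ℤ, ∀ σ : K →ₐ[ℂ] Ω,
    c σ = ∑ᶠ w ∈ {w : Place Ω M | CentredAt τ w σ}, w.ord f := by
  classical
  have hcΩ : CharZero Ω := charZero_of_injective_algebraMap (algebraMap ℂ Ω).injective
  have hfin : {σ : K →ₐ[ℂ] Ω | (∑ᶠ w ∈ {w : Place Ω M | CentredAt τ w σ}, w.ord f) ≠ 0}.Finite := by
    have h1 : ∀ σ : K →ₐ[ℂ] Ω, ∃ w : Place Ω M,
        (∑ᶠ w ∈ {w : Place Ω M | CentredAt τ w σ}, w.ord f) ≠ 0 →
        CentredAt τ w σ ∧ w.ord f ≠ 0 := by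
      intro σ
      by_cases h : (∑ᶠ w ∈ {w : Place Ω M | CentredAt τ w σ}, w.ord f) ≠ 0
      · by_contra hcon
        push Not at hcon
        obtain ⟨w0, -⟩ := exists_place (k := Ω) (K := M)
        refine (hcon w0).1 (finsum_mem_eq_zero_of_forall_eq_zero fun w hw => ?_)
        exact (hcon w).2 hw
      · obtain ⟨w0, -⟩ := exists_place (k := Ω) (K := M)
        exact ⟨w0, fun h' => absurd h' h⟩
    choose w hw using h1
    refine Set.Finite.of_injOn (f := w) (t := {w : Place Ω M | w.ord f ≠ 0})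
      (fun σ hσ => (hw σ hσ).2) ?_ (finite_support (k := Ω) f)
    intro σ hσ σ' hσ' h
    refine centre_unique (hw σ hσ).1 ?_
    rw [h]
    exact (hw σ' hσ').1
  exact ⟨Finsupp.ofSupportFinite _ hfin, fun σ => rfl⟩

/-- One factor. -/
theorem per_factor {τ0 : L →+* E} {τ : K →+* M}
    (hτ1 : ∀ a : L, τ (algebraMap L K a) = algebraMap E M (τ0 a))
    (hτ0 : ∀ z : ℂ, τ0 (algebraMap ℂ L z) = algebraMap Ω E (algebraMap ℂ Ω z))
    (pb : PowerBasis L K) {N : ℕ} (hN : Module.finrank E M = N) {g : E → E}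
    (hnorm : ∀ z : E, Algebra.norm E (algebraMap E M z - τ pb.gen) = g z)
    {f : E} (hf : f ≠ 0) {Z : Finset (Place Ω E)} (hZ : ∀ v, v ∈ Z ↔ v.ord f ≠ 0)
    {S : (L →ₐ[ℂ] Ω) → Finset (K →ₐ[ℂ] Ω)} (hS : ∀ q σ, σ ∈ S q ↔ restr L Ω σ = q) :
    ∃ (c : (K →ₐ[ℂ] Ω) →₀ ℤ) (m : Place Ω E → (K →ₐ[ℂ] Ω) → ℤ), c ∈ Rat K Ω ∧
      (∀ (σ : K →ₐ[ℂ] Ω) (V : Finset (Place Ω E)),
        (∀ v, v ∈ V ↔ v ∈ Z ∧ CentredAt τ0 v (restr L Ω σ)) → c σ = ∑ v ∈ V, m v σ * v.ord f) ∧
      (∀ v σ, 0 ≤ m v σ) ∧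
      (∀ v q, CentredAt τ0 v q → ∑ σ ∈ S q, m v σ = N) ∧
      ∀ v q σ, CentredAt τ0 v q → restr L Ω σ = q →
        Ge v 1 (g (algebraMap Ω E (σ pb.gen))) → 1 ≤ m v σ := by
  classical
  have hcΩ : CharZero Ω := charZero_of_injective_algebraMap (algebraMap ℂ Ω).injective
  have hτ : ∀ z : ℂ, τ (algebraMap ℂ K z) = algebraMap Ω M (algebraMap ℂ Ω z) := by
    intro z
    rw [IsScalarTower.algebraMap_apply ℂ L K, hτ1, hτ0, ← IsScalarTower.algebraMap_apply]
  choose T hT using fun v : Place Ω E => Pool.Agent.N75.CV.nf_ Ω E M v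
  have hTo : ∀ v w, w ∈ T v ↔ ∃ e, Over w v e := by
    intro v w
    rw [(hT v).1]
    constructor
    · exact fun h => over_of_above h
    · rintro ⟨e, he⟩ a ha
      exact he.reg.2 ha
  choose u hu0 hu1 using fun v : Place Ω E => v.surj
  have hfM : algebraMap E M f ≠ 0 := (_root_.map_ne_zero _).2 hf
  obtain ⟨c, hc⟩ := exists_fs (K := K) (Ω := Ω) τ (algebraMap E M f)
  have hord : ∀ v w, w ∈ T v → ∀ h : E, w.ord (algebraMap E M h) =
      w.ord (algebraMap E M (u v)) * v.ord h := by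
    intro v w hw h
    obtain ⟨e, he⟩ := (hTo v w).1 hw
    rw [he.2 h, he.2 (u v), hu1]
    ring
  have hpos : ∀ v w, w ∈ T v → 1 ≤ w.ord (algebraMap E M (u v)) := by
    intro v w hw
    obtain ⟨e, he⟩ := (hTo v w).1 hw
    rw [he.2 (u v), hu1]
    have := he.1
    push_cast
    omega
  -- the centres
  have hcen : ∀ v q w, CentredAt τ0 v q → w ∈ T v →
      ∃ σ' : K →ₐ[ℂ] Ω, restr L Ω σ' = q ∧ CentredAt τ w σ' := by
    intro v q w hv hw
    obtain ⟨e, he⟩ := (hTo v w).1 hw
    refine lift_centre hτ (v := w) (σ := q) ?_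
    rw [centred_iff] at hv ⊢
    intro a
    have h1 : (τ.comp (algebraMap L K)) a - algebraMap Ω M (q a) =
        algebraMap E M (τ0 a - algebraMap Ω E (q a)) := by
      rw [RingHom.comp_apply, hτ1, map_sub, ← IsScalarTower.algebraMap_apply]
    rw [h1]
    exact (Pool.Agent.N141.CV.over_ge he).2 (hv a)
  obtain ⟨m, hm⟩ : ∃ m : Place Ω E → (K →ₐ[ℂ] Ω) → ℤ, ∀ v σ, m v σ =
      ∑ w ∈ (T v).filter (fun w => CentredAt τ w σ), w.ord (algebraMap E M (u v)) :=
    ⟨fun v σ => ∑ w ∈ (T v).filter (fun w => CentredAt τ w σ), w.ord (algebraMap E M (u v)),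
      fun _ _ => rfl⟩
  refine ⟨c, m, ?_, ?_, ?_, ?_, ?_⟩
  · exact AddSubgroup.subset_closure ⟨M, inferInstance, inferInstance, inferInstance, τ,
      algebraMap E M f, hτ, hfM, hc⟩
  · intro σ V hV
    have hfin : {w : Place Ω M | w.ord (algebraMap E M f) ≠ 0}.Finite := finite_support (k := Ω) _
    have hfin' : (Function.support fun w : Place Ω M => w.ord (algebraMap E M f)).Finite := hfin
    rw [hc, finsum_mem_eq_sum_filter _ _ hfin']
    have h1 : ∑ v ∈ V, m v σ * v.ord f = ∑ v ∈ V,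
        ∑ w ∈ (T v).filter (fun w => CentredAt τ w σ), w.ord (algebraMap E M f) := by
      refine Finset.sum_congr rfl fun v _ => ?_
      rw [hm, Finset.sum_mul]
      refine Finset.sum_congr rfl fun w hw => ?_
      rw [Finset.mem_filter] at hw
      rw [hord v w hw.1 f]
    rw [h1, ← Finset.sum_biUnion]
    · refine Finset.sum_congr ?_ fun _ _ => rfl
      ext w
      rw [Finset.mem_filter, Set.Finite.mem_toFinset, Finset.mem_biUnion]
      constructor
      · rintro ⟨h2, h3⟩
        have h3' : CentredAt τ w σ := h3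
        obtain ⟨e, v, he⟩ := FF.exists_over (K := E) w ⟨f, h2⟩
        refine ⟨v, (hV v).2 ⟨(hZ v).2 fun h4 => h2 ?_, ?_⟩, Finset.mem_filter.2
          ⟨(hTo v w).2 ⟨e, he⟩, h3'⟩⟩
        · change w.ord (algebraMap E M f) = 0
          rw [he.2 f, h4, mul_zero]
        · rw [centred_iff] at h3' ⊢
          intro a
          have h5 := h3' (algebraMap L K a)
          rw [hτ1] at h5
          have h6 : algebraMap E M (τ0 a - algebraMap Ω E (restr L Ω σ a)) =
              algebraMap E M (τ0 a) - algebraMap Ω M (σ (algebraMap L K a)) := by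
            rw [map_sub, ← IsScalarTower.algebraMap_apply, restr_apply]
          rw [← h6] at h5
          exact (Pool.Agent.N141.CV.over_ge he).1 h5
      · rintro ⟨v, hv, hw⟩
        rw [Finset.mem_filter] at hw
        refine ⟨?_, hw.2⟩
        have h2 := (hZ v).1 ((hV v).1 hv).1
        change w.ord (algebraMap E M f) ≠ 0
        rw [hord v w hw.1 f]
        have h3 := hpos v w hw.1
        exact mul_ne_zero (by omega) h2
    · intro v _ v' _ hne
      refine Finset.disjoint_left.2 fun w hw hw' => hne ?_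
      obtain ⟨e, he⟩ := (hTo v w).1 (Finset.mem_filter.1 hw).1
      obtain ⟨e', he'⟩ := (hTo v' w).1 (Finset.mem_filter.1 hw').1
      exact over_unique he he'
  · intro v σ
    rw [hm]
    refine Finset.sum_nonneg fun w hw => ?_
    have := hpos v w (Finset.mem_filter.1 hw).1
    omega
  · intro v q hv
    have h1 := (hT v).2 (algebraMap E M (u v)) ((_root_.map_ne_zero _).2 (hu0 v))
    rw [Algebra.norm_algebraMap, v.ord_pow, hu1, mul_one, hN] at h1
    rw [h1]
    have hne : Nonempty (K →ₐ[ℂ] Ω) := ⟨(restr_surj q).choose⟩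
    have hex : ∀ w, ∃ σ' : K →ₐ[ℂ] Ω, w ∈ T v → restr L Ω σ' = q ∧ CentredAt τ w σ' := by
      intro w
      by_cases hw : w ∈ T v
      · obtain ⟨σ', h⟩ := hcen v q w hv hw
        exact ⟨σ', fun _ => h⟩
      · exact ⟨hne.some, fun h => absurd h hw⟩
    choose s hs using hex
    rw [← Finset.sum_fiberwise_of_maps_to (s := T v) (t := S q) (g := s)
      (fun w hw => (hS q _).2 (hs w hw).1)]
    refine Finset.sum_congr rfl fun σ _ => ?_
    rw [hm]
    refine Finset.sum_congr ?_ fun _ _ => rfl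
    ext w
    rw [Finset.mem_filter, Finset.mem_filter]
    constructor
    · rintro ⟨h2, h3⟩
      exact ⟨h2, centre_unique (hs w h2).2 h3⟩
    · rintro ⟨h2, h3⟩
      refine ⟨h2, ?_⟩
      rw [← h3]
      exact (hs w h2).2
  · intro v q σ hv hσ hge
    -- a place at which `θ` has the right value
    have hex : ∃ w ∈ T v, Ge w 1 (τ pb.gen - algebraMap Ω M (σ pb.gen)) := by
      have hnm := hnorm (algebraMap Ω E (σ pb.gen))
      rw [← IsScalarTower.algebraMap_apply] at hnm
      by_cases h0 : algebraMap Ω M (σ pb.gen) - τ pb.gen = 0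
      · have hTne : (T v).Nonempty := by
          rw [Finset.nonempty_iff_ne_empty]
          intro he
          have h1 := (hT v).2 (algebraMap E M (u v)) ((_root_.map_ne_zero _).2 (hu0 v))
          rw [Algebra.norm_algebraMap, v.ord_pow, hu1, mul_one, he, Finset.sum_empty] at h1
          have h2 : 0 < Module.finrank E M := Module.finrank_pos
          omega
        obtain ⟨w, hw⟩ := hTne
        refine ⟨w, hw, ?_⟩
        rw [← neg_sub, h0, neg_zero]
        exact Ge.zero
      · have h1 := (hT v).2 _ h0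
        rw [hnm] at h1
        have h2 : Algebra.norm E (algebraMap Ω M (σ pb.gen) - τ pb.gen) ≠ 0 :=
          Algebra.norm_ne_zero_iff.2 h0
        rw [hnm] at h2
        have h3 := hge.resolve_left h2
        rw [h1] at h3
        by_contra hcon
        push Not at hcon
        have h4 : ∑ w ∈ T v, w.ord (algebraMap Ω M (σ pb.gen) - τ pb.gen) ≤ 0 := by
          refine Finset.sum_nonpos fun w hw => ?_
          by_contra h5
          refine hcon w hw ?_
          rw [← neg_sub]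
          have h6 : Ge w 1 (algebraMap Ω M (σ pb.gen) - τ pb.gen) := Or.inr (by omega)
          exact h6.neg
        omega
    obtain ⟨w, hw, hwg⟩ := hex
    obtain ⟨σ', h1, h2⟩ := hcen v q w hv hw
    have h3 : σ' pb.gen = σ pb.gen := by
      have h4 := hwg.sub ((centred_iff.1 h2) pb.gen)
      rw [sub_sub_sub_cancel_left, ← map_sub] at h4
      exact sub_eq_zero.1 (const_zero h4)
    have h5 : σ' = σ := by
      let i1 : Algebra L Ω := q.toRingHom.toAlgebra
      have hh : ∀ ρ : K →ₐ[ℂ] Ω, restr L Ω ρ = q → ∀ a : L, ρ (algebraMap L K a) = q a := by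
        intro ρ hρ a
        rw [← restr_apply, hρ]
      let ρ1 : K →ₐ[L] Ω := { σ'.toRingHom with commutes' := fun a => hh σ' h1 a }
      let ρ2 : K →ₐ[L] Ω := { σ.toRingHom with commutes' := fun a => hh σ hσ a }
      have h6 : ρ1 = ρ2 := pb.algHom_ext h3
      ext a
      exact congrArg (fun ρ : K →ₐ[L] Ω => ρ a) h6
    rw [h5] at h2
    rw [hm]
    refine (hpos v w hw).trans ?_
    refine Finset.single_le_sum (f := fun w : Place Ω M => w.ord (algebraMap E M (u v)))
      (fun w' hw' => ?_) (Finset.mem_filter.2 ⟨hw, h2⟩)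
    have := hpos v w' (Finset.mem_filter.1 hw').1
    change 0 ≤ w'.ord (algebraMap E M (u v))
    omega

end

section

variable {L K Ω E : Type} [Field L] [Field K] [Algebra ℂ L] [Algebra ℂ K] [Algebra L K]
  [IsScalarTower ℂ L K] [FiniteDimensional L K] [Field Ω] [Algebra ℂ Ω] [IsAlgClosed Ω]
  [Field E] [Algebra Ω E] [IsFF Ω E]

/-- Several factors. -/
theorem factors {τ0 : L →+* E}
    (hτ0 : ∀ z : ℂ, τ0 (algebraMap ℂ L z) = algebraMap Ω E (algebraMap ℂ Ω z))
    (pb : PowerBasis L K) {f : E} (hf : f ≠ 0) {Z : Finset (Place Ω E)}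
    (hZ : ∀ v, v ∈ Z ↔ v.ord f ≠ 0) {S : (L →ₐ[ℂ] Ω) → Finset (K →ₐ[ℂ] Ω)}
    (hS : ∀ q σ, σ ∈ S q ↔ restr L Ω σ = q) (G : Multiset E[X]) :
    (∀ g ∈ G, g.Monic ∧ Irreducible g ∧ g ∣ (minpoly L pb.gen).map τ0) →
    ∃ (c : (K →ₐ[ℂ] Ω) →₀ ℤ) (m : Place Ω E → (K →ₐ[ℂ] Ω) → ℤ), c ∈ Rat K Ω ∧
      (∀ (σ : K →ₐ[ℂ] Ω) (V : Finset (Place Ω E)),
        (∀ v, v ∈ V ↔ v ∈ Z ∧ CentredAt τ0 v (restr L Ω σ)) → c σ = ∑ v ∈ V, m v σ * v.ord f) ∧
      (∀ v σ, 0 ≤ m v σ) ∧
      (∀ v q, CentredAt τ0 v q → ∑ σ ∈ S q, m v σ = G.prod.natDegree) ∧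
      ∀ v q σ, CentredAt τ0 v q → restr L Ω σ = q →
        Ge v 1 (G.prod.eval (algebraMap Ω E (σ pb.gen))) → 1 ≤ m v σ := by
  classical
  have hcΩ : CharZero Ω := charZero_of_injective_algebraMap (algebraMap ℂ Ω).injective
  induction G using Multiset.induction_on with
  | empty =>
    intro _
    refine ⟨0, fun _ _ => 0, zero_mem _, ?_, fun _ _ => le_rfl, ?_, ?_⟩
    · intro σ V _
      simp
    · intro v q _
      simp
    · intro v q σ _ _ h
      rw [Multiset.prod_zero, eval_one] at h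
      exact absurd h not_ge_one_one
  | cons g G ih =>
    intro hG
    obtain ⟨c2, m2, a1, a2, a3, a4, a5⟩ := ih fun g' hg' => hG g' (Multiset.mem_cons_of_mem hg')
    obtain ⟨hgm, hgi, hgd⟩ := hG g (Multiset.mem_cons_self g G)
    have : Fact (Irreducible g) := ⟨hgi⟩
    have : FiniteDimensional E (AdjoinRoot g) := hgm.finite_adjoinRoot
    have : IsFF Ω (AdjoinRoot g) := isFF_fin (E := E)
    obtain ⟨τ, hτ1, hτ2⟩ := exists_tau pb τ0 hgd
    obtain ⟨c1, m1, b1, b2, b3, b4, b5⟩ := per_factor (M := AdjoinRoot g) (τ := τ) hτ1 hτ0 pb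
      (N := g.natDegree) (g := fun z => g.eval z) (by
        rw [(AdjoinRoot.powerBasis hgm.ne_zero).finrank, AdjoinRoot.powerBasis_dim]) (fun z => by
        rw [hτ2]
        exact norm_sub_root hgm z) hf hZ hS
    have hGm : G.prod.Monic := by
      have h1 := monic_multiset_prod_of_monic G id fun g' hg' =>
        (hG g' (Multiset.mem_cons_of_mem hg')).1
      rwa [Multiset.map_id] at h1
    refine ⟨c1 + c2, fun v σ => m1 v σ + m2 v σ, add_mem b1 a1, ?_, ?_, ?_, ?_⟩
    · intro σ V hV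
      rw [Finsupp.add_apply, b2 σ V hV, a2 σ V hV, ← Finset.sum_add_distrib]
      exact Finset.sum_congr rfl fun v _ => by ring
    · intro v σ
      have h1 := b3 v σ
      have h2 := a3 v σ
      change 0 ≤ m1 v σ + m2 v σ
      omega
    · intro v q hv
      rw [Finset.sum_add_distrib, b4 v q hv, a4 v q hv, Multiset.prod_cons,
        hgm.natDegree_mul hGm]
      push_cast
      ring
    · intro v q σ hv hσ h
      rw [Multiset.prod_cons, eval_mul] at h
      have h1 := b3 v σ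
      have h2 := a3 v σ
      change 1 ≤ m1 v σ + m2 v σ
      rcases ge_one_mul h with h3 | h3
      · have := b5 v q σ hv hσ h3
        omega
      · have := a5 v q σ hv hσ h3
        omega

/-- The preimage of the cycle of a function. -/
theorem pull_gen {τ0 : L →+* E}
    (hτ0 : ∀ z : ℂ, τ0 (algebraMap ℂ L z) = algebraMap Ω E (algebraMap ℂ Ω z))
    {f : E} (hf : f ≠ 0) {c0 : (L →ₐ[ℂ] Ω) →₀ ℤ}
    (hc0 : ∀ q : L →ₐ[ℂ] Ω, c0 q = ∑ᶠ v ∈ {v : Place Ω E | CentredAt τ0 v q}, v.ord f)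
    {c : (K →ₐ[ℂ] Ω) →₀ ℤ} (hc : ∀ σ, c σ = c0 (restr L Ω σ)) : c ∈ Rat K Ω := by
  classical
  have hcΩ : CharZero Ω := charZero_of_injective_algebraMap (algebraMap ℂ Ω).injective
  have hcL : CharZero L := charZero_of_injective_algebraMap (algebraMap ℂ L).injective
  choose S hS hcard _ using fun q : L →ₐ[ℂ] Ω => exists_fib (K' := K) q
  let pb : PowerBasis L K := Field.powerBasisOfFiniteOfSeparable L K
  have hfin : {v : Place Ω E | v.ord f ≠ 0}.Finite := finite_support (k := Ω) _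
  have hZ : ∀ v, v ∈ hfin.toFinset ↔ v.ord f ≠ 0 := fun v => by
    rw [Set.Finite.mem_toFinset]
    rfl
  have hPm : ((minpoly L pb.gen).map τ0).Monic :=
    (minpoly.monic (IsIntegral.of_finite L pb.gen)).map τ0
  have hprod : (UniqueFactorizationMonoid.normalizedFactors ((minpoly L pb.gen).map τ0)).prod =
      (minpoly L pb.gen).map τ0 := by
    rw [UniqueFactorizationMonoid.prod_normalizedFactors_eq hPm.ne_zero, hPm.normalize_eq_self]
  have hdeg : ((minpoly L pb.gen).map τ0).natDegree = Module.finrank L K := by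
    rw [(minpoly.monic (IsIntegral.of_finite L pb.gen)).natDegree_map, pb.finrank,
      pb.natDegree_minpoly]
  obtain ⟨c', m, a1, a2, a3, a4, a5⟩ := factors (K := K) hτ0 pb hf hZ hS
    (UniqueFactorizationMonoid.normalizedFactors ((minpoly L pb.gen).map τ0)) (fun g hg => by
      have hgi := UniqueFactorizationMonoid.irreducible_of_normalized_factor g hg
      have hgn := UniqueFactorizationMonoid.normalize_normalized_factor g hg
      refine ⟨?_, hgi, UniqueFactorizationMonoid.dvd_of_mem_normalizedFactors hg⟩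
      rw [← hgn]
      exact monic_normalize hgi.ne_zero)
  rw [hprod] at a4 a5
  have hone : ∀ v (σ : K →ₐ[ℂ] Ω), CentredAt τ0 v (restr L Ω σ) → m v σ = 1 := by
    intro v σ hv
    have h1 : ∀ ρ ∈ S (restr L Ω σ), 1 ≤ m v ρ := by
      intro ρ hρ
      have hρ' := (hS _ _).1 hρ
      refine a5 v (restr L Ω σ) ρ hv hρ' ?_
      have h2 := eval_ge hv (minpoly L pb.gen) (ρ pb.gen)
      have h3 : ((minpoly L pb.gen).map ((restr L Ω σ : L →ₐ[ℂ] Ω) : L →+* Ω)).eval
          (ρ pb.gen) = 0 := by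
        have h4 : ((restr L Ω σ : L →ₐ[ℂ] Ω) : L →+* Ω) =
            (ρ : K →+* Ω).comp (algebraMap L K) := by
          ext a
          have h5 := congrArg (fun q : L →ₐ[ℂ] Ω => q a) hρ'
          exact h5.symm
        rw [h4, ← Polynomial.map_map, eval_map, ← RingHom.coe_coe ρ, eval₂_at_apply]
        rw [eval_map, ← aeval_def, minpoly.aeval, map_zero]
      rw [h3, map_zero, sub_zero] at h2
      exact h2
    have h2 : ∑ ρ ∈ S (restr L Ω σ), (1 : ℤ) = ∑ ρ ∈ S (restr L Ω σ), m v ρ := by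
      rw [a4 v _ hv, hdeg, Finset.sum_const, hcard]
      simp
    have h3 := (Finset.sum_eq_sum_iff_of_le h1).1 h2
    exact (h3 σ ((hS _ _).2 rfl)).symm
  have hcc : c = c' := by
    ext σ
    have hfin' : (Function.support fun v : Place Ω E => v.ord f).Finite := hfin
    rw [hc, hc0, finsum_mem_eq_sum_filter _ _ hfin']
    rw [a2 σ (hfin.toFinset.filter fun v => CentredAt τ0 v (restr L Ω σ)) (fun v => by
      rw [Finset.mem_filter])]
    refine Finset.sum_congr ?_ fun v hv => ?_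
    · ext v
      rw [Finset.mem_filter, Finset.mem_filter, Set.Finite.mem_toFinset, Set.Finite.mem_toFinset]
      rfl
    · rw [Finset.mem_filter] at hv
      rw [hone v σ hv.2, one_mul]
  rw [hcc]
  exact a1

/-- **Pullback of rational equivalence.** -/
theorem rat_pull {c0 : (L →ₐ[ℂ] Ω) →₀ ℤ} (h : c0 ∈ Rat L Ω) :
    ∀ c : (K →ₐ[ℂ] Ω) →₀ ℤ, (∀ σ, c σ = c0 (restr L Ω σ)) → c ∈ Rat K Ω := by
  classical
  unfold Pool.Agent.N162.BC.Rat at h
  induction h using AddSubgroup.closure_induction with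
  | mem c0 hc0 =>
    intro c hc
    obtain ⟨E, iE, aE, hFF, τ0, f, h1, h2, h3⟩ := hc0
    exact pull_gen h1 h2 h3 hc
  | zero =>
    intro c hc
    have h0 : c = 0 := by
      ext σ
      rw [hc]
      rfl
    rw [h0]
    exact zero_mem _
  | add a b _ _ ha hb =>
    intro c hc
    obtain ⟨a', ha', -⟩ := exists_lift_cycle (K' := K) a
    obtain ⟨b', hb', -⟩ := exists_lift_cycle (K' := K) b
    have h0 : c = a' + b' := by
      ext σ
      rw [hc, Finsupp.add_apply, Finsupp.add_apply, ha', hb']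
    rw [h0]
    exact add_mem (ha a' ha') (hb b' hb')
  | neg a _ ha =>
    intro c hc
    obtain ⟨a', ha', -⟩ := exists_lift_cycle (K' := K) a
    have h0 : c = -a' := by
      ext σ
      rw [hc, Finsupp.neg_apply, Finsupp.neg_apply, ha']
    rw [h0]
    exact neg_mem (ha a' ha')

end

end Pool.Agent.U1.BL
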